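import Pool.Agent.Helper54.UN.St

/-! # Project UN, part (C), module VEK: labels near the vertex `om` -/

set_option autoImplicit false

noncomputable section

namespace Pool.Agent.Helper9.UNC

open Set Filter Topology Pool.Agent.Helper71.UN Pool.Agent.Helper54.UN

private theorem vekA {T X Y p q : ℝ} (h : T = -X * p + Y * q) (hT : 0 < T) (hp : 0 < p)
    (hq : 0 < q) (hY : Y ≤ 0) : X < 0 := by
  by_contra hX
  have h1 := mul_nonneg (not_lt.1 hX) hp.le
  have h2 := mul_nonpos_of_nonpos_of_nonneg hY hq.le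
  linarith

private theorem vekB {T X Y p q : ℝ} (h : T = -X * p + Y * q) (hT : 0 < T) (hp : p < 0)
    (hq : 0 < q) (hX : X ≤ 0) : 0 < Y := by
  by_contra hY
  have h1 := mul_nonneg_of_nonpos_of_nonpos hX hp.le
  have h2 := mul_nonpos_of_nonpos_of_nonneg (not_lt.1 hY) hq.le
  linarith

private theorem vekC {T X Y p q : ℝ} (h : T = -X * p + Y * q) (hT : T ≤ 0) (hp : p < 0)
    (hq : 0 < q) (hY : 0 < Y) : X < 0 := by
  by_contra hX
  have h1 := mul_nonpos_of_nonneg_of_nonpos (not_lt.1 hX) hp.le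
  have h2 := mul_pos hY hq
  linarith

theorem hVEK (hU : StU) : StVEK := by
  intro k l a b τ g hG
  have hadd : Continuous fun z : ℂ => om + z := by fun_prop
  have kp : ∀ f : ℂ → ℝ, Continuous f → 0 < f om → ∀ᶠ z in 𝓝 (0 : ℂ), 0 < f (om + z) := by
    intro f hf h
    exact evp (f := fun z => f (om + z)) (hf.comp hadd) (p := 0) (by simpa using h)
  have kn : ∀ f : ℂ → ℝ, Continuous f → f om < 0 → ∀ᶠ z in 𝓝 (0 : ℂ), f (om + z) < 0 := by
    intro f hf h
    exact evn (f := fun z => f (om + z)) (hf.comp hadd) (p := 0) (by simpa using h)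
  filter_upwards [kp _ (continuous_lf 1 a) hG.f5o, kp _ (continuous_lf (-om) 1) hG.f7o,
    kp _ (continuous_lf 1 b) hG.f4o, kp _ (continuous_lf a b) hG.gdo,
    kn _ (continuous_lf τ a) hG.g0o, kp _ continuous_el hG.eo] with z h5 h7 h4 hg h0 he r1 r2 r6
  rw [hU k l a b τ g hG _ he]
  have e1 : lf a om (om + z) = - dt (a - om) z := by
    rw [lf_eq, dt_eq]; simp only [Complex.add_re, Complex.add_im, Complex.sub_re, Complex.sub_im]
    ring
  have e2 : lf b om (om + z) = - dt (b - om) z := by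
    rw [lf_eq, dt_eq]; simp only [Complex.add_re, Complex.add_im, Complex.sub_re, Complex.sub_im]
    ring
  have e6 : lf om (-1) (om + z) = dt (-(1 + om)) z := by
    rw [lf_eq, dt_eq]
    simp only [Complex.add_re, Complex.add_im, Complex.neg_re, Complex.neg_im]
    ring
  have m01 := plu (a - τ) (a - om) z
  have m12 := plu (a - om) (b - om) z
  have m62 := plu (-(1 + om)) (b - om) z
  have m61 := plu (-(1 + om)) (a - om) z
  have z1 := ofr_neg hG.d1 r1
  have z2 := ofr_neg hG.d2 r2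
  have z6 := ofr_pos hG.d6 r6
  have hA : dt (a - om) z < 0 → 0 < dt (-(1 + om)) z → lamU k l a b τ (om + z) = 0 := by
    intro h1 h6
    unfold lamU
    rw [e1, e6, if_pos ⟨h5, by linarith, h6, h7⟩]
  have hB : (0 < dt (b - om) z ∧ 0 ≤ dt (a - om) z) ∨ dt (-(1 + om)) z < 0 →
      lamU k l a b τ (om + z) = 1 := by
    intro h
    unfold lamU
    rw [e1, e2, e6, if_neg, if_pos]
    · rcases h with h | h
      · exact Or.inr (Or.inl (by linarith [h.1]))
      · exact Or.inr (Or.inr (Or.inl h))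
    · rintro ⟨-, q1, q6, -⟩
      rcases h with h | h
      · linarith [h.2]
      · linarith
  have hC : 0 < dt (a - om) z → dt (b - om) z < 0 → 0 < dt (-(1 + om)) z →
      lamU k l a b τ (om + z) = l := by
    intro h1 h2 h6
    unfold lamU
    rw [e1, e2, e6, if_neg, if_neg, if_neg]
    · rintro (q | ⟨q, -⟩)
      · linarith
      · linarith
    · rintro (q | q | q | q) <;> linarith
    · rintro ⟨-, q1, -, -⟩
      linarith
  unfold stN
  split_ifs with hz c0 c1 c2 c3 c6 c5 c4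
  · have T := mul_pos hG.t01 hz
    have D1 := vekA m01 T hG.d0 hG.d1 c0
    have D2 := vekA m12 (mul_pos hG.t12 hz) hG.d1 hG.d2 D1.le
    rw [hA D1 (vekB m62 (mul_pos hG.t62 hz) hG.d6 hG.d2 D2.le)]
    rfl
  · have D1 : dt (a - om) z < 0 := lt_of_le_of_ne c1 fun h => absurd hz (not_lt.2 (z1 h).le)
    have D2 := vekA m12 (mul_pos hG.t12 hz) hG.d1 hG.d2 D1.le
    rw [hA D1 (vekB m62 (mul_pos hG.t62 hz) hG.d6 hG.d2 D2.le)]
    rfl
  · have D2 : dt (b - om) z < 0 := lt_of_le_of_ne c2 fun h => absurd hz (not_lt.2 (z2 h).le)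
    rw [hC (not_le.1 c1) D2 (vekB m62 (mul_pos hG.t62 hz) hG.d6 hG.d2 D2.le)]
    rfl
  · rw [hB (Or.inl ⟨not_le.1 c2, (not_le.1 c1).le⟩)]
    rfl
  · rw [hB (Or.inl ⟨not_le.1 c2, (not_le.1 c1).le⟩)]
    rfl
  · have D6 : 0 < dt (-(1 + om)) z := lt_of_le_of_ne c6 fun h => hz (z6 h.symm)
    have D1 := vekC m61 (mul_nonpos_of_nonneg_of_nonpos hG.t61.le (not_lt.1 hz)) hG.d6 hG.d1 D6
    rw [hA D1 D6]
    rfl
  · rw [hB (Or.inr (not_le.1 c6))]
    rfl
  · rw [hB (Or.inr (not_le.1 c6))]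
    rfl
  · rw [hB (Or.inr (not_le.1 c6))]
    rfl

end Pool.Agent.Helper9.UNC
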